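import Pool.Agent.H68.Open.Alt

set_option autoImplicit false

/-!
# Divided differences and confluent alternants

`AltN f x L` is the determinant of the divided differences of `f_0, …, f_(L-1)` at
`(x_0), (x_0, x_1), …`; it is the value of the polynomial `Alt` at `(x_0, …, x_(L-1))` also at
coinciding points.
-/

namespace Pool.Agent.H68.Open

open Finset Pool.Agent.H68.Izer

open Polynomial (C X)

section ring

variable {R : Type*} [CommRing R]

/-- iterated quotients -/
noncomputable def dq (p : Polynomial R) (x : ℕ → R) : ℕ → Polynomial R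
  | 0 => p
  | k + 1 => (dq p x k) /ₘ (X - C (x k))

/-- divided difference at `x_0, …, x_k` -/
noncomputable def dv (x : ℕ → R) (k : ℕ) (p : Polynomial R) : R := (dq p x k).eval (x k)

lemma eval_divByMonic (p : Polynomial R) (a z : R) :
    p.eval z = p.eval a + (z - a) * (p /ₘ (X - C a)).eval z := by
  have h := Polynomial.modByMonic_add_div p (X - C a)
  have h2 := congrArg (Polynomial.eval z) h
  rw [Polynomial.modByMonic_X_sub_C_eq_C_eval, Polynomial.eval_add, Polynomial.eval_mul,
    Polynomial.eval_C] at h2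
  rw [← h2]
  simp

lemma mul_div_X_sub_C (p : Polynomial R) (a : R) :
    (X - C a) * (p /ₘ (X - C a)) = p - C (p.eval a) := by
  have h := Polynomial.modByMonic_add_div p (X - C a)
  rw [Polynomial.modByMonic_X_sub_C_eq_C_eval] at h
  linear_combination h

lemma div_unique {p q : Polynomial R} {a c : R} (h : (X - C a) * q = p - C c) :
    p /ₘ (X - C a) = q := by
  have hc : c = p.eval a := by
    have := congrArg (Polynomial.eval a) h
    simp at this
    linear_combination this
  apply (Polynomial.monic_X_sub_C a).isRegular.left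
  simp only
  rw [mul_div_X_sub_C, h, hc]

lemma add_divByMonic' (p q : Polynomial R) (a : R) :
    (p + q) /ₘ (X - C a) = p /ₘ (X - C a) + q /ₘ (X - C a) := by
  apply div_unique (c := p.eval a + q.eval a)
  rw [mul_add, mul_div_X_sub_C, mul_div_X_sub_C, Polynomial.C_add]
  ring

lemma smul_divByMonic' (c : R) (p : Polynomial R) (a : R) :
    (c • p) /ₘ (X - C a) = c • (p /ₘ (X - C a)) := by
  apply div_unique (c := c * p.eval a)
  rw [mul_smul_comm, mul_div_X_sub_C, smul_sub, Polynomial.C_mul, Polynomial.smul_eq_C_mul,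
    Polynomial.smul_eq_C_mul]

/-- Newton interpolation with remainder -/
theorem newton (p : Polynomial R) (x : ℕ → R) (z : R) (n : ℕ) :
    p.eval z = ∑ k ∈ range n, dv x k p * ∏ l ∈ range k, (z - x l) +
      (dq p x n).eval z * ∏ l ∈ range n, (z - x l) := by
  induction n with
  | zero => simp [dq]
  | succ n ih =>
    have h1 := eval_divByMonic (dq p x n) (x n) z
    rw [Finset.sum_range_succ, Finset.prod_range_succ, ih, h1]
    simp only [dv, dq]
    ring

lemma dq_add (p q : Polynomial R) (x : ℕ → R) (k : ℕ) : dq (p + q) x k = dq p x k + dq q x k := by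
  induction k with
  | zero => rfl
  | succ k ih => simp only [dq, ih, add_divByMonic']

lemma dq_smul (c : R) (p : Polynomial R) (x : ℕ → R) (k : ℕ) : dq (c • p) x k = c • dq p x k := by
  induction k with
  | zero => rfl
  | succ k ih => simp only [dq, ih, smul_divByMonic']

lemma dv_add (p q : Polynomial R) (x : ℕ → R) (k : ℕ) : dv x k (p + q) = dv x k p + dv x k q := by
  simp [dv, dq_add]

lemma dv_smul (c : R) (p : Polynomial R) (x : ℕ → R) (k : ℕ) : dv x k (c • p) = c * dv x k p := by
  simp [dv, dq_smul]

lemma dv_C_mul (c : R) (p : Polynomial R) (x : ℕ → R) (k : ℕ) :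
    dv x k (C c * p) = c * dv x k p := by
  rw [← Polynomial.smul_eq_C_mul, dv_smul]

lemma map_dq {S : Type*} [CommRing S] (f : R →+* S) (p : Polynomial R) (x : ℕ → R) (k : ℕ) :
    (dq p x k).map f = dq (p.map f) (fun n => f (x n)) k := by
  induction k with
  | zero => rfl
  | succ k ih =>
    simp only [dq]
    rw [Polynomial.map_divByMonic f (Polynomial.monic_X_sub_C _), ih]
    simp

lemma map_dv {S : Type*} [CommRing S] (f : R →+* S) (p : Polynomial R) (x : ℕ → R) (k : ℕ) :
    f (dv x k p) = dv (fun n => f (x n)) k (p.map f) := by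
  unfold dv
  rw [← map_dq, Polynomial.eval_map_apply]

/-- shift -/
lemma dq_succ' (p : Polynomial R) (x : ℕ → R) (k : ℕ) :
    dq p x (k + 1) = dq (p /ₘ (X - C (x 0))) (fun n => x (n + 1)) k := by
  induction k with
  | zero => rfl
  | succ k ih =>
    rw [dq, ih]
    rfl

lemma dv_succ' (p : Polynomial R) (x : ℕ → R) (k : ℕ) :
    dv x (k + 1) p = dv (fun n => x (n + 1)) k (p /ₘ (X - C (x 0))) := by
  unfold dv
  rw [dq_succ']

lemma dv_mul_zero (p : Polynomial R) (x : ℕ → R) : dv x 0 ((X - C (x 0)) * p) = 0 := by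
  simp [dv, dq]

lemma dv_mul_succ (p : Polynomial R) (x : ℕ → R) (k : ℕ) :
    dv x (k + 1) ((X - C (x 0)) * p) = dv (fun n => x (n + 1)) k p := by
  rw [dv_succ', Polynomial.mul_divByMonic_cancel_left _ (Polynomial.monic_X_sub_C _)]

lemma dq_zero (x : ℕ → R) (k : ℕ) : dq (0 : Polynomial R) x k = 0 := by
  have h := dq_smul (0 : R) (0 : Polynomial R) x k
  rwa [zero_smul, zero_smul] at h

lemma C_div (c a : R) : (C c : Polynomial R) /ₘ (X - C a) = 0 :=
  div_unique (c := c) (by simp)

lemma X_div (a : R) : (X : Polynomial R) /ₘ (X - C a) = 1 :=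
  div_unique (c := a) (by simp)

lemma dv_one_zero (x : ℕ → R) : dv x 0 (1 : Polynomial R) = 1 := by simp [dv, dq]

lemma dv_one_succ (x : ℕ → R) (k : ℕ) : dv x (k + 1) (1 : Polynomial R) = 0 := by
  rw [dv_succ', ← Polynomial.C_1, C_div, dv, dq_zero, Polynomial.eval_zero]

lemma dv_X_zero (x : ℕ → R) : dv x 0 (X : Polynomial R) = x 0 := by simp [dv, dq]

lemma dv_X_one (x : ℕ → R) : dv x 1 (X : Polynomial R) = 1 := by
  rw [dv_succ', X_div, dv_one_zero]

lemma dv_X_succ (x : ℕ → R) (k : ℕ) : dv x (k + 2) (X : Polynomial R) = 0 := by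
  rw [dv_succ', X_div, dv_one_succ]

/-- determinant of divided differences -/
noncomputable def AltN (f : ℕ → Polynomial R) (x : ℕ → R) (L : ℕ) : R :=
  Matrix.det (Matrix.of fun k j : Fin L => dv x k (f j))

lemma map_AltN {S : Type*} [CommRing S] (φ : R →+* S) (f : ℕ → Polynomial R) (x : ℕ → R) (L : ℕ) :
    φ (AltN f x L) = AltN (fun j => (f j).map φ) (fun n => φ (x n)) L := by
  unfold AltN
  rw [RingHom.map_det]
  congr 1
  ext k j
  simp [map_dv]

/-- the alternant is the Vandermonde product times the determinant of divided differences -/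
theorem det_eval_eq (f : ℕ → Polynomial R) (x : ℕ → R) (L : ℕ) :
    Matrix.det (Matrix.of fun i j : Fin L => (f j).eval (x i)) =
      vd (fun i : Fin L => x i) * AltN f x L := by
  classical
  have h1 : (Matrix.of fun i j : Fin L => (f j).eval (x i)) =
      (Matrix.of fun i k : Fin L => ∏ l ∈ range (k : ℕ), (x i - x l)) *
        (Matrix.of fun k j : Fin L => dv x k (f j)) := by
    ext i j
    rw [Matrix.mul_apply, Matrix.of_apply, newton (f j) x (x i) L]
    have h2 : ∏ l ∈ range L, (x i - x l) = 0 :=
      Finset.prod_eq_zero (Finset.mem_range.2 i.2) (sub_self _)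
    rw [h2, mul_zero, add_zero, ← Fin.sum_univ_eq_sum_range
      (fun k => dv x k (f j) * ∏ l ∈ range k, (x i - x l))]
    refine Finset.sum_congr rfl fun k _ => ?_
    simp only [Matrix.of_apply]
    ring
  rw [h1, Matrix.det_mul]
  congr 1
  rw [Matrix.det_of_isLowerTriangular]
  · rw [vd, Matrix.det_vandermonde]
    have h3 : ∀ i : Fin L, (Matrix.of fun i k : Fin L => ∏ l ∈ range (k : ℕ), (x i - x l)) i i =
        ∏ l ∈ Iio i, (x i - x l) := by
      intro i
      simp only [Matrix.of_apply]
      refine Finset.prod_bij' (fun l hl => (⟨l, lt_trans (Finset.mem_range.1 hl) i.2⟩ : Fin L))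
        (fun l _ => (l : ℕ)) ?_ ?_ ?_ ?_ ?_
      · intro l hl
        rw [Finset.mem_Iio, Fin.lt_def]
        exact Finset.mem_range.1 hl
      · intro l hl
        rw [Finset.mem_Iio, Fin.lt_def] at hl
        exact Finset.mem_range.2 hl
      · intro l _; rfl
      · intro l _; rfl
      · intro l _; rfl
    rw [Finset.prod_congr rfl (fun i _ => h3 i)]
    refine Finset.prod_comm' ?_
    simp
  · intro i k hik
    have h4 : (i : ℕ) < k := hik
    simp only [Matrix.of_apply]
    exact Finset.prod_eq_zero (Finset.mem_range.2 h4) (sub_self _)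

/-! ### fusion -/

/-- unitriangular change of the functions: `f_(j+2)` may be replaced by `f_(j+2) - c_j f_j` -/
theorem AltN_change (f : ℕ → Polynomial R) (c : ℕ → R) (x : ℕ → R) (L : ℕ) :
    AltN (fun j => if j < 2 then f j else f j - C (c j) * f (j - 2)) x L = AltN f x L := by
  classical
  unfold AltN
  have h1 : (Matrix.of fun k j : Fin L =>
      dv x k (if (j : ℕ) < 2 then f j else f j - C (c j) * f (j - 2))) =
      (Matrix.of fun k j : Fin L => dv x k (f j)) *
        (Matrix.of fun l j : Fin L => if l = j then 1 else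
          if (l : ℕ) + 2 = j then -c j else 0) := by
    ext k j
    rw [Matrix.mul_apply]
    simp only [Matrix.of_apply, mul_ite, mul_one, mul_zero]
    by_cases hj : (j : ℕ) < 2
    · rw [if_pos hj, Finset.sum_eq_single j]
      · simp
      · intro l _ hl
        rw [if_neg hl, if_neg (by omega)]
      · simp
    · rw [if_neg hj]
      have hj2 : (j : ℕ) - 2 < L := by have := j.2; omega
      have hne : (⟨(j : ℕ) - 2, hj2⟩ : Fin L) ≠ j := by
        intro h
        have := congrArg Fin.val h
        simp only at this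
        omega
      rw [Finset.sum_eq_add (⟨(j : ℕ) - 2, hj2⟩ : Fin L) j hne]
      · rw [if_neg hne, if_pos (by simp only; omega), if_pos rfl]
        have h2 : f j - C (c j) * f (j - 2) = f j + (-c j) • f ((j : ℕ) - 2) := by
          rw [Polynomial.smul_eq_C_mul, Polynomial.C_neg]; ring
        rw [h2, dv_add, dv_smul]
        ring
      · intro l _ hl
        rw [if_neg hl.2, if_neg]
        intro h
        apply hl.1
        apply Fin.ext
        simp only
        omega
      · simp
      · simp
  rw [h1, Matrix.det_mul]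
  have h2 : Matrix.det (Matrix.of fun l j : Fin L => if l = j then (1 : R) else
          if (l : ℕ) + 2 = j then -c j else 0) = 1 := by
    rw [Matrix.det_of_isUpperTriangular]
    · simp
    · intro l j hlj
      have h4 : (j : ℕ) < l := hlj
      simp only [Matrix.of_apply]
      rw [if_neg (by rintro rfl; exact lt_irrefl _ h4), if_neg (by omega)]
  rw [h2, mul_one]

/-- a determinant with first column `(1, 0, …, 0)` -/
lemma det_first_col {L : ℕ} (A : Matrix (Fin (L + 1)) (Fin (L + 1)) R) (h0 : A 0 0 = 1)
    (h1 : ∀ i : Fin L, A i.succ 0 = 0) :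
    A.det = (A.submatrix Fin.succ Fin.succ).det := by
  rw [Matrix.det_succ_column_zero, Fin.sum_univ_succ]
  simp [h0, h1]

/-- the determinant for the functions `1, X, (X - x_0)(X - x_1) g_0, …` -/
theorem AltN_reduce (f g : ℕ → Polynomial R) (x : ℕ → R) (L : ℕ) (h0 : f 0 = 1) (h1 : f 1 = X)
    (h2 : ∀ j < L, f (j + 2) = (X - C (x 0)) * ((X - C (x 1)) * g j)) :
    AltN f x (L + 2) = AltN g (fun n => x (n + 2)) L := by
  unfold AltN
  rw [det_first_col, det_first_col]
  · congr 1
    ext k j
    simp only [Matrix.submatrix_apply, Matrix.of_apply, Fin.val_succ]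
    rw [h2 j j.2, dv_mul_succ, dv_mul_succ (g j) (fun n => x (n + 1))]
  · simp only [Matrix.submatrix_apply, Matrix.of_apply, Fin.val_succ, Fin.val_zero]
    rw [h1, dv_X_one]
  · intro i
    simp only [Matrix.submatrix_apply, Matrix.of_apply, Fin.val_succ, Fin.val_zero]
    rw [h1, dv_X_succ]
  · simp only [Matrix.of_apply, Fin.val_zero]
    rw [h0, dv_one_zero]
  · intro i
    simp only [Matrix.of_apply, Fin.val_zero, Fin.val_succ]
    rw [h0, dv_one_succ]

lemma AltN_congr (f g : ℕ → Polynomial R) (x y : ℕ → R) (L : ℕ) (h : ∀ j < L, f j = g j)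
    (hxy : ∀ j < L, x j = y j) : AltN f x L = AltN g y L := by
  unfold AltN
  congr 1
  ext k j
  simp only [Matrix.of_apply]
  rw [h j j.2]
  have key : ∀ m : ℕ, m ≤ (k : ℕ) → dq (g j) x m = dq (g j) y m := by
    intro m
    induction m with
    | zero => intro _; rfl
    | succ m ih =>
      intro hm
      have := k.2
      rw [dq, dq, ih (by omega), hxy m (by omega)]
  rw [dv, dv, key k le_rfl, hxy k k.2]

end ring

section field

variable {K : Type*} [Field K] {L : ℕ}

/-- extension by zero -/
noncomputable def ext0 {R : Type*} [Zero R] (x : Fin L → R) (n : ℕ) : R :=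
  if h : n < L then x ⟨n, h⟩ else 0

lemma ext0_val {R : Type*} [Zero R] (x : Fin L → R) (i : Fin L) : ext0 x i = x i := by
  rw [ext0, dif_pos i.2]

/-- generic determinant of divided differences -/
theorem AltN_generic (f : ℕ → Polynomial K) :
    AltN (fun j => (f j).map (MvPolynomial.C : K →+* MvPolynomial (Fin L) K))
      (ext0 (MvPolynomial.X : Fin L → MvPolynomial (Fin L) K)) L =
      Alt (fun j : Fin L => f j) := by
  have h1 := det_eval_eq (fun j => (f j).map (MvPolynomial.C : K →+* MvPolynomial (Fin L) K))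
    (ext0 (MvPolynomial.X : Fin L → MvPolynomial (Fin L) K)) L
  simp only [ext0_val] at h1
  have h2 := Alt_spec (fun j : Fin L => f j)
  have h3 : alt (fun j : Fin L => f j) (MvPolynomial.X : Fin L → MvPolynomial (Fin L) K) =
      Matrix.det (Matrix.of fun i j : Fin L => Polynomial.eval (MvPolynomial.X i)
        ((f j).map (MvPolynomial.C : K →+* MvPolynomial (Fin L) K))) := by
    unfold alt
    congr 1
    ext i j
    simp only [Matrix.of_apply]
    rw [Polynomial.eval_map]
    rfl
  rw [← h3, h2] at h1
  exact (mul_left_cancel₀ vd_ne_zero h1).symm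

/-- values of `Alt` -/
theorem aeval_Alt {R : Type*} [CommRing R] [Algebra K R] (f : ℕ → Polynomial K) (x : ℕ → R) :
    MvPolynomial.aeval (fun i : Fin L => x i) (Alt (fun j : Fin L => f j)) =
      AltN (fun j => (f j).map (algebraMap K R)) x L := by
  rw [← AltN_generic]
  have h1 := map_AltN (MvPolynomial.aeval (fun i : Fin L => x i) :
    MvPolynomial (Fin L) K →ₐ[K] R).toRingHom
    (fun j => (f j).map (MvPolynomial.C : K →+* MvPolynomial (Fin L) K))
    (ext0 (MvPolynomial.X : Fin L → MvPolynomial (Fin L) K)) L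
  refine (show _ = _ from h1).trans (AltN_congr _ _ _ _ L ?_ ?_)
  · intro j _
    rw [Polynomial.map_map]
    congr 1
    ext c
    simp
  · intro j hj
    rw [ext0, dif_pos hj]
    simp

theorem eval_Alt (f : ℕ → Polynomial K) (x : ℕ → K) :
    MvPolynomial.eval (fun i : Fin L => x i) (Alt (fun j : Fin L => f j)) = AltN f x L := by
  have h := aeval_Alt (L := L) f x
  have h2 : MvPolynomial.aeval (fun i : Fin L => x i) (Alt (fun j : Fin L => f j)) =
      MvPolynomial.eval (fun i : Fin L => x i) (Alt (fun j : Fin L => f j)) :=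
    RingHom.congr_fun (MvPolynomial.coe_aeval_eq_eval _) _
  rw [h2] at h
  rw [h]
  simp

/-- multiplication of all functions by `X - a` -/
theorem AltN_mul (f : ℕ → Polynomial K) (a : K) (x : ℕ → K) :
    AltN (fun j => (X - C a) * f j) x L = (∏ i ∈ range L, (x i - a)) * AltN f x L := by
  classical
  have h0 : Alt (fun j : Fin L => (X - C a) * f j) =
      (∏ i : Fin L, (MvPolynomial.X i - MvPolynomial.C a)) * Alt (fun j : Fin L => f j) := by
    have h1 := Alt_spec (fun j : Fin L => (X - C a) * f j)
    have h2 := Alt_spec (fun j : Fin L => f j)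
    have h3 : alt (fun j : Fin L => (X - C a) * f j)
        (MvPolynomial.X : Fin L → MvPolynomial (Fin L) K) =
        (∏ i : Fin L, (MvPolynomial.X i - MvPolynomial.C a)) *
          alt (fun j : Fin L => f j) MvPolynomial.X := by
      unfold alt
      rw [← Matrix.det_mul_column]
      congr 1
      ext i j
      simp [MvPolynomial.algebraMap_eq]
    rw [h2, h1] at h3
    apply mul_left_cancel₀ (vd_ne_zero (K := K) (L := L))
    rw [h3]
    ring
  rw [← eval_Alt, h0, map_mul, eval_Alt, map_prod]
  congr 1
  rw [← Fin.prod_univ_eq_prod_range (fun i => x i - a)]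
  simp

end field

end Pool.Agent.H68.Open
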