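import Pool.Agent.H68.Izer.Quot

set_option autoImplicit false

/-!
# Alternants divided by the Vandermonde determinant

For polynomials `g_0, …, g_(L-1)` in one variable, `Alt g : MvPolynomial (Fin L) K` is the quotient
of `det (g_j (X_i))` by the Vandermonde product (helper68).
-/

namespace Pool.Agent.H68.Open

open Finset MvPolynomial Pool.Agent.H68.Izer

variable {K : Type*} [Field K] {L : ℕ}

/-- the alternant -/
noncomputable def alt {R : Type*} [CommRing R] [Algebra K R] (g : Fin L → Polynomial K)
    (x : Fin L → R) : R := Matrix.det (Matrix.of fun i j => Polynomial.aeval (x i) (g j))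

lemma map_alt {R S : Type*} [CommRing R] [Algebra K R] [CommRing S] [Algebra K S] (f : R →ₐ[K] S)
    (g : Fin L → Polynomial K) (x : Fin L → R) : f (alt g x) = alt g (fun i => f (x i)) := by
  unfold alt
  rw [AlgHom.map_det]
  congr 1
  ext i j
  simp [Polynomial.aeval_algHom_apply]

lemma alt_eq_zero {R : Type*} [CommRing R] [Algebra K R] (g : Fin L → Polynomial K)
    (x : Fin L → R) {i j : Fin L} (hij : i ≠ j) (h : x i = x j) : alt g x = 0 := by
  unfold alt
  refine Matrix.det_zero_of_row_eq hij ?_
  funext k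
  simp [h]

lemma alt_perm {R : Type*} [CommRing R] [Algebra K R] (g : Fin L → Polynomial K)
    (x : Fin L → R) (σ : Equiv.Perm (Fin L)) :
    alt g (x ∘ σ) = (Equiv.Perm.sign σ : ℤ) * alt g x := by
  unfold alt
  rw [← Matrix.det_permute]
  rfl

lemma vd_perm' {R : Type*} [CommRing R] (x : Fin L → R) (σ : Equiv.Perm (Fin L)) :
    vd (x ∘ σ) = (Equiv.Perm.sign σ : ℤ) * vd x := by
  unfold vd
  rw [← Matrix.det_permute]
  rfl

lemma relPrime1 {i j k l : Fin L} (hij : i < j) (hkl : k < l) (h : (i, j) ≠ (k, l)) :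
    IsRelPrime (X j - X i : MvPolynomial (Fin L) K) (X l - X k) := by
  have h1 := relPrime (K := K) hij hkl h
  rw [pow_two, pow_two] at h1
  exact (h1.of_mul_left_left).of_mul_right_left

lemma vd_dvd_alt (g : Fin L → Polynomial K) :
    vd (X : Fin L → MvPolynomial (Fin L) K) ∣ alt g X := by
  rw [vd_eq]
  apply Finset.prod_dvd_of_isRelPrime
  · rintro ⟨i, j⟩ hp ⟨k, l⟩ hp' hne
    simp only [coe_sigma, Set.mem_sigma_iff, coe_univ, Set.mem_univ, coe_Ioi, Set.mem_Ioi,
      true_and] at hp hp'
    apply relPrime1 hp hp'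
    intro h
    apply hne
    rw [Prod.mk.injEq] at h
    simp [h.1, h.2]
  · rintro ⟨i, j⟩ hp
    simp only [mem_sigma, mem_univ, mem_Ioi, true_and] at hp
    rw [dvd_iff_subst hp.ne', map_alt]
    apply alt_eq_zero g _ hp.ne'
    simp [subst, hp.ne]

/-- the quotient of the alternant by the Vandermonde product -/
noncomputable def Alt (g : Fin L → Polynomial K) : MvPolynomial (Fin L) K :=
  (vd_dvd_alt g).choose

lemma Alt_spec (g : Fin L → Polynomial K) : alt g X = vd X * Alt g := (vd_dvd_alt g).choose_spec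

lemma Alt_hom {R : Type*} [CommRing R] [Algebra K R] (g : Fin L → Polynomial K) (x : Fin L → R) :
    alt g x = vd x * aeval x (Alt g) := by
  have h := congrArg (aeval x) (Alt_spec g)
  rw [map_alt, map_mul] at h
  have h2 := map_vd (aeval x : MvPolynomial (Fin L) K →ₐ[K] R).toRingHom X
  simp only [AlgHom.toRingHom_eq_coe, RingHom.coe_coe, aeval_X] at h2
  rw [h2] at h
  simpa using h

lemma Alt_eval (g : Fin L → Polynomial K) (x : Fin L → K) :
    alt g x = vd x * eval x (Alt g) := by
  have h := Alt_hom g x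
  have h2 : aeval x (Alt g) = eval x (Alt g) := RingHom.congr_fun (coe_aeval_eq_eval x) _
  rw [h2] at h
  exact h

lemma Alt_rename (g : Fin L → Polynomial K) (σ : Equiv.Perm (Fin L)) :
    rename σ (Alt g) = Alt g := by
  have h := congrArg (rename σ) (Alt_spec g)
  rw [map_alt, map_mul] at h
  have h3 := map_vd (rename σ : MvPolynomial (Fin L) K →ₐ[K] _).toRingHom X
  have h4 : (fun k => (rename σ : MvPolynomial (Fin L) K →ₐ[K] _).toRingHom (X k)) = X ∘ σ := by
    funext k; simp
  rw [h4] at h3
  have h5 : rename σ (vd (X : Fin L → MvPolynomial (Fin L) K)) = vd (X ∘ σ) := h3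
  have h6 : (fun i => rename σ (X i : MvPolynomial (Fin L) K)) = X ∘ σ := by
    funext k; simp
  rw [h5, h6, alt_perm, vd_perm', Alt_spec] at h
  have h7 : (((Equiv.Perm.sign σ : ℤˣ) : ℤ) : MvPolynomial (Fin L) K) ≠ 0 := by
    rcases Int.units_eq_one_or (Equiv.Perm.sign σ) with h | h <;> rw [h] <;> simp
  have h8 := mul_left_cancel₀ (mul_ne_zero h7 (vd_ne_zero (K := K) (L := L)))
    (show _ * vd X * Alt g = _ * vd X * rename σ (Alt g) by linear_combination h)
  exact h8.symm

lemma Alt_perm (g : Fin L → Polynomial K) (σ : Equiv.Perm (Fin L)) (x : Fin L → K) :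
    eval (x ∘ σ) (Alt g) = eval x (Alt g) := by
  rw [← eval_rename, Alt_rename]

/-! ### degrees -/

lemma degreeOf_aeval_le (i l : Fin L) (p : Polynomial K) :
    degreeOf i (Polynomial.aeval (X l : MvPolynomial (Fin L) K) p) ≤
      if l = i then p.natDegree else 0 := by
  classical
  rw [Polynomial.aeval_eq_sum_range]
  refine (degreeOf_sum_le i _ _).trans ?_
  rw [Finset.sup_le_iff]
  intro k hk
  rw [Finset.mem_range] at hk
  rw [smul_eq_C_mul]
  refine (degreeOf_C_mul_le _ _ _).trans ?_
  refine (degreeOf_pow_le _ _ _).trans ?_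
  rw [degreeOf_X]
  split_ifs with h1 h2 h2
  · omega
  · exact absurd h1.symm h2
  · exact absurd h2.symm h1
  · simp

lemma degreeOf_alt_le (g : Fin L → Polynomial K) (d : ℕ) (hd : ∀ j, (g j).natDegree ≤ d)
    (i : Fin L) : degreeOf i (alt g (X : Fin L → MvPolynomial (Fin L) K)) ≤ d := by
  classical
  unfold alt
  rw [Matrix.det_apply]
  refine (degreeOf_sum_le i _ _).trans ?_
  rw [Finset.sup_le_iff]
  intro σ _
  have h1 : degreeOf i (Equiv.Perm.sign σ • ∏ k, (Matrix.of fun i j =>
      Polynomial.aeval (X i : MvPolynomial (Fin L) K) (g j)) (σ k) k) ≤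
      degreeOf i (∏ k, (Matrix.of fun i j =>
      Polynomial.aeval (X i : MvPolynomial (Fin L) K) (g j)) (σ k) k) := by
    rcases Int.units_eq_one_or (Equiv.Perm.sign σ) with h | h
    · rw [h, one_smul]
    · rw [h, Units.neg_smul, one_smul]
      rw [degreeOf_neg]
  refine h1.trans ((degreeOf_prod_le i _ _).trans ?_)
  have h2 : ∀ k ∈ (univ : Finset (Fin L)), degreeOf i ((Matrix.of fun i j =>
      Polynomial.aeval (X i : MvPolynomial (Fin L) K) (g j)) (σ k) k) ≤
      if k = σ.symm i then d else 0 := by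
    intro k _
    refine (degreeOf_aeval_le i (σ k) (g k)).trans ?_
    by_cases h : σ k = i
    · rw [if_pos h, if_pos (by rw [← h]; simp)]
      exact hd k
    · rw [if_neg h]
      exact Nat.zero_le _
  refine (Finset.sum_le_sum h2).trans ?_
  simp

lemma le_degreeOf_X_sub_X {a b : Fin L} (hab : a ≠ b) (i : Fin L) :
    (if a = i then 1 else 0) + (if b = i then 1 else 0) ≤
      degreeOf i (X b - X a : MvPolynomial (Fin L) K) := by
  classical
  have h1 : (if a = i then 1 else 0) + (if b = i then 1 else 0) ≤ 1 := by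
    split_ifs with h h'
    · exact absurd (h.trans h'.symm) hab
    all_goals simp
  by_cases h : a = i ∨ b = i
  · refine h1.trans ?_
    have key : ∀ m ∈ (X b - X a : MvPolynomial (Fin L) K).support, m i ≤
        degreeOf i (X b - X a : MvPolynomial (Fin L) K) := by
      intro m hm
      rw [degreeOf_eq_sup]
      exact Finset.le_sup (f := fun m => m i) hm
    rcases h with h | h
    · refine le_trans ?_ (key (Finsupp.single a 1) ?_)
      · simp [h]
      · rw [mem_support_iff, coeff_sub, coeff_X, coeff_X, if_pos rfl, if_neg]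
        · simp
        · intro h'
          rw [Finsupp.single_eq_single_iff] at h'
          simp only [one_ne_zero, and_false, or_false, and_true] at h'
          exact hab h'.symm
    · refine le_trans ?_ (key (Finsupp.single b 1) ?_)
      · simp [h]
      · rw [mem_support_iff, coeff_sub, coeff_X, coeff_X, if_pos rfl, if_neg]
        · simp
        · intro h'
          rw [Finsupp.single_eq_single_iff] at h'
          simp only [one_ne_zero, and_false, or_false, and_true] at h'
          exact hab h'
  · push Not at h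
    simp [h.1, h.2]

lemma sum_pairs (i : Fin L) : ∑ p ∈ (univ : Finset (Fin L)).sigma fun i => Ioi i,
    ((if p.1 = i then 1 else 0) + (if p.2 = i then 1 else 0)) = L - 1 := by
  classical
  rw [Finset.sum_sigma]
  have h2 : ∀ a : Fin L, ∑ b ∈ Ioi a, (((if a = i then 1 else 0) : ℕ) +
      (if b = i then 1 else 0)) =
      (if a = i then (L - 1 - (i : ℕ)) else 0) + (if a ∈ Iio i then 1 else 0) := by
    intro a
    rw [Finset.sum_add_distrib, Finset.sum_const, Finset.sum_ite_eq', Fin.card_Ioi]
    congr 1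
    · split_ifs with h
      · rw [h]; simp
      · simp
    · simp
  rw [Finset.sum_congr rfl (fun a _ => h2 a), Finset.sum_add_distrib, Finset.sum_ite_eq',
    Finset.sum_ite_mem, Finset.univ_inter]
  have := i.2
  simp only [Finset.mem_univ, if_true, Finset.sum_const, Fin.card_Iio, smul_eq_mul, mul_one]
  omega

lemma le_degreeOf_vd (i : Fin L) :
    L - 1 ≤ degreeOf i (vd (X : Fin L → MvPolynomial (Fin L) K)) := by
  classical
  have hne : ∀ p ∈ (univ : Finset (Fin L)).sigma fun i => Ioi i,
      (X p.2 - X p.1 : MvPolynomial (Fin L) K) ≠ 0 := by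
    rintro ⟨i, j⟩ hp
    simp only [mem_sigma, mem_univ, mem_Ioi, true_and] at hp
    exact X_sub_X_ne_zero hp.ne'
  rw [vd_eq, degreeOf_prod_eq _ _ hne, ← sum_pairs i]
  refine Finset.sum_le_sum ?_
  rintro ⟨a, b⟩ hp
  simp only [mem_sigma, mem_univ, mem_Ioi, true_and] at hp
  exact le_degreeOf_X_sub_X hp.ne i

/-- degree of the quotient -/
theorem degreeOf_Alt_le (g : Fin L → Polynomial K) (d : ℕ) (hd : ∀ j, (g j).natDegree ≤ d)
    (i : Fin L) : degreeOf i (Alt g) ≤ d - (L - 1) := by
  by_cases h0 : Alt g = 0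
  · rw [h0]; simp
  · have h1 := degreeOf_alt_le g d hd i
    rw [Alt_spec, degreeOf_mul_eq vd_ne_zero h0] at h1
    have h2 := le_degreeOf_vd (K := K) i
    omega

end Pool.Agent.H68.Open
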